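import Pool.Agent.H14.QF.Gen

/-!
# Multigraphs in which no circuit has more than thirteen edges outside of the closure of the short
cycles
-/

set_option autoImplicit false
set_option linter.unusedSectionVars false

namespace Pool.Agent.H14.QF.Circ

open Finset Relation Pool.Agent.TH362.TF Pool.Agent.TH362.TF.Four Pool.Agent.R145.Cir
  Pool.Agent.R890.FF Pool.Agent.R140.PK Pool.Agent.N393.C13 Pool.Agent.W5h8.M9

variable {V E : Type} [Fintype V] [DecidableEq V] [Fintype E] [DecidableEq E]

/-- in a minimal quotient the edges on short circuits are loops -/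
theorem Mc_short {s t : E → V} {S : Finset E} (h : Mc s t S) {C : Finset E} (hCS : C ⊆ S)
    (hC : ∀ v, Even (deg s t C v)) (hc : C.card ≤ 4) {e : E} (he : e ∈ C) : s e = t e := by
  by_contra hab
  have par : ∀ {x y : V} {f f' : E}, x ≠ y → f ∈ C → f' ∈ C → f' ≠ f → Ends s t x y f →
      Ends s t x y f' → False := fun hxy hf hf' hne h1 h2 =>
    hne (h.nopar hxy (hCS hf') (hCS hf) h2 h1)
  have hE : Ends s t (s e) (t e) e := Or.inl ⟨rfl, rfl⟩
  generalize s e = a at hab hE
  generalize t e = b at hab hE
  obtain ⟨e2, he2, n2, c, hac, E2⟩ := second hC he hE hab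
  have hbc : b ≠ c := by
    rintro rfl
    exact par hab he he2 n2 hE E2
  obtain ⟨e3, he3, n3, d, hbd, E3⟩ := second hC he (ends_comm' hE) (Ne.symm hab)
  have had : a ≠ d := by
    rintro rfl
    exact par (Ne.symm hab) he he3 n3 (ends_comm' hE) E3
  have hcd : c ≠ d := by
    rintro rfl
    exact h.notri hab hac hbc (hCS he) (hCS he3) (hCS he2) hE E3 (ends_comm' E2)
  obtain ⟨e4, he4, n4, f, hcf, E4⟩ := second hC he2 (ends_comm' E2) (Ne.symm hac)
  have haf : a ≠ f := by
    rintro rfl
    exact par (Ne.symm hac) he2 he4 n4 (ends_comm' E2) E4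
  have hbf : b ≠ f := by
    rintro rfl
    exact h.notri hab hac hbc (hCS he) (hCS he4) (hCS he2) hE (ends_comm' E4) (ends_comm' E2)
  have hdf : d ≠ f := by
    rintro rfl
    exact h.nofour hab had hac hbd hbc (Ne.symm hcd) (hCS he) (hCS he3) (hCS he4) (hCS he2)
      hE E3 (ends_comm' E4) (ends_comm' E2)
  obtain ⟨e5, he5, n5, g, hdg, E5⟩ := second hC he3 (ends_comm' E3) (Ne.symm hbd)
  have uniq : ∀ {x y x' y' : V} {k : E}, Ends s t x y k → Ends s t x' y' k →
      (x = x' ∧ y = y') ∨ (x = y' ∧ y = x') := by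
    intro x y x' y' k h1 h2
    rcases h1 with ⟨h3, h4⟩ | ⟨h3, h4⟩ <;> rcases h2 with ⟨h5, h6⟩ | ⟨h5, h6⟩
    · exact Or.inl ⟨h3.symm.trans h5, h4.symm.trans h6⟩
    · exact Or.inr ⟨h3.symm.trans h5, h4.symm.trans h6⟩
    · exact Or.inr ⟨h4.symm.trans h6, h3.symm.trans h5⟩
    · exact Or.inl ⟨h4.symm.trans h6, h3.symm.trans h5⟩
  have m51 : e5 ≠ e := by
    rintro rfl
    rcases uniq hE E5 with ⟨h1, _⟩ | ⟨_, h1⟩
    · exact had h1
    · exact hbd h1
  have m52 : e5 ≠ e2 := by
    rintro rfl
    rcases uniq E2 E5 with ⟨h1, _⟩ | ⟨_, h1⟩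
    · exact had h1
    · exact hcd h1
  have m54 : e5 ≠ e4 := by
    rintro rfl
    rcases uniq E4 E5 with ⟨h1, _⟩ | ⟨_, h1⟩
    · exact hcd h1
    · exact hdf h1.symm
  have m32 : e3 ≠ e2 := by
    rintro rfl
    rcases uniq E2 E3 with ⟨h1, _⟩ | ⟨_, h1⟩
    · exact hab h1
    · exact hbc h1.symm
  have m41 : e4 ≠ e := by
    rintro rfl
    rcases uniq hE E4 with ⟨h1, _⟩ | ⟨_, h1⟩
    · exact hac h1
    · exact hbc h1
  have m43 : e4 ≠ e3 := by
    rintro rfl
    rcases uniq E3 E4 with ⟨h1, _⟩ | ⟨_, h1⟩
    · exact hbc h1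
    · exact hcd h1.symm
  have hsub : ({e, e2, e3, e4, e5} : Finset E) ⊆ C := by
    intro x hx
    simp only [mem_insert, mem_singleton] at hx
    rcases hx with rfl | rfl | rfl | rfl | rfl <;> assumption
  have hcard : ({e, e2, e3, e4, e5} : Finset E).card = 5 := by
    rw [card_insert_of_notMem, card_insert_of_notMem, card_insert_of_notMem,
      card_insert_of_notMem, card_singleton]
    · simp only [mem_singleton]; exact m54.symm
    · simp only [mem_insert, mem_singleton, not_or]; exact ⟨m43.symm, n5.symm⟩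
    · simp only [mem_insert, mem_singleton, not_or]; exact ⟨m32.symm, n4.symm, m52.symm⟩
    · simp only [mem_insert, mem_singleton, not_or]
      exact ⟨n2.symm, n3.symm, m41.symm, m51.symm⟩
  have := card_le_card hsub
  omega


theorem fc_comp {s t : E → V} {π ρ : V → V} (h0 : FC s t univ π)
    (h1 : FC (fun e => π (s e)) (fun e => π (t e)) univ ρ) :
    FC s t univ (fun v => ρ (π v)) := by
  intro x y hxy
  have key : ∀ q, ReflTransGen (St (fun e => π (s e)) (fun e => π (t e)) univ
      (fun v => ρ v = ρ (π x))) (π x) q → ∀ y', π y' = q →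
      ReflTransGen (St s t univ (fun u => ρ (π u) = ρ (π x))) x y' := by
    intro q hq
    induction hq with
    | refl =>
      intro y' hy'
      exact St.mono (fun u hu => by rw [hu]) (h0 x y' hy'.symm)
    | tail hpq hstep ih =>
      rename_i p q'
      intro y' hy'
      obtain ⟨⟨e, he, hE⟩, hp, hq'⟩ := hstep
      have hp' : ρ p = ρ (π x) := hp
      have hq2 : ρ q' = ρ (π x) := hq'
      rcases hE with ⟨a1, a2⟩ | ⟨a1, a2⟩
      · have b1 : π (s e) = p := a1
        have b2 : π (t e) = q' := a2
        refine ((ih (s e) b1).tail ⟨⟨e, he, Or.inl ⟨rfl, rfl⟩⟩, ?_, ?_⟩).trans ?_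
        · show ρ (π (s e)) = _
          rw [b1, hp']
        · show ρ (π (t e)) = _
          rw [b2, hq2]
        · refine St.mono (fun u hu => ?_) (h0 (t e) y' (b2.trans hy'.symm))
          rw [hu, b2, hq2]
      · have b1 : π (s e) = q' := a1
        have b2 : π (t e) = p := a2
        refine ((ih (t e) b2).tail ⟨⟨e, he, Or.inr ⟨rfl, rfl⟩⟩, ?_, ?_⟩).trans ?_
        · show ρ (π (t e)) = _
          rw [b2, hp']
        · show ρ (π (s e)) = _
          rw [b1, hq2]
        · refine St.mono (fun u hu => ?_) (h0 (s e) y' (b1.trans hy'.symm))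
          rw [hu, b1, hq2]
  exact key (π y) (h1 (π x) (π y) hxy) y rfl

/-- the number of changes of `π` along a list -/
def chg (π : V → V) : List V → ℕ
  | [] => 0
  | [_] => 0
  | x :: y :: r => (if π x = π y then 0 else 1) + chg π (y :: r)

theorem chg_append (π : V → V) : ∀ (q r : List V) (x y : V), q.getLast? = some x →
    r.head? = some y → π x ≠ π y → chg π q + 1 + chg π r ≤ chg π (q ++ r)
  | [], _, _, _, h, _, _ => by simp at h
  | [a], r, x, y, h, h2, h3 => by
    simp only [List.getLast?_singleton, Option.some.injEq] at h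
    subst h
    rcases r with _ | ⟨b, r⟩
    · simp at h2
    · simp only [List.head?_cons, Option.some.injEq] at h2
      subst h2
      simp [chg, h3]
  | a :: b :: q, r, x, y, h, h2, h3 => by
    have h4 : (b :: q).getLast? = some x := by
      rw [← h, List.getLast?_cons_cons]
    have ih := chg_append π (b :: q) r x y h4 h2 h3
    simp only [List.cons_append, chg] at ih ⊢
    omega

theorem chg_eq (π : V → V) (d : V) : ∀ (q : List V), chg π q =
    ∑ i ∈ range (q.length - 1), if π (q.getD i d) = π (q.getD (i + 1) d) then 0 else 1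
  | [] => by simp [chg]
  | [a] => by simp [chg]
  | a :: b :: q => by
    have ih := chg_eq π d (b :: q)
    simp only [List.length_cons, Nat.add_sub_cancel] at ih ⊢
    rw [Finset.sum_range_succ']
    simp only [List.getD_cons_succ, List.getD_cons_zero, chg, ih]
    omega

theorem lift_path {s t : E → V} {π : V → V} (hF : FC s t univ π) :
    ∀ (l : List V) (a c : V), Pa (nbG (fun e => π (s e)) (fun e => π (t e)) univ) (a :: l) →
      (a :: l).getLast? = some c → ∀ x, π x = a → ∀ y, π y = c →
      ∃ q : List V, Pa (nbG s t univ) q ∧ q.head? = some x ∧ q.getLast? = some y ∧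
        l.length ≤ chg π q ∧ ∀ v ∈ q, π v ∈ a :: l := by
  intro l
  induction l with
  | nil =>
    intro a c _ hc x hx y hy
    simp only [List.getLast?_singleton, Option.some.injEq] at hc
    subst hc
    obtain ⟨q, q1, q2, q3, q4⟩ := Lft.conn hF (x := x) (y := y) (hx.trans hy.symm)
    exact ⟨q, q1, q2, q3, by simp, fun v hv => by simp [q4 v hv, hx]⟩
  | cons b l ih =>
    intro a c hp hc x hx y hy
    have hab : (nbG (fun e => π (s e)) (fun e => π (t e)) univ).Adj a b := by
      have := hp.2
      rw [List.isChain_cons_cons] at this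
      exact this.1
    obtain ⟨x1, y1, hx1, hy1, hxy⟩ := Lft.adj hab
    obtain ⟨q, q1, q2, q3, q4⟩ := Lft.conn hF (x := x) (y := x1) (hx.trans hx1.symm)
    have e : a :: b :: l = [a] ++ (b :: l) := rfl
    have hp2 := hp
    rw [e, pa_append] at hp2
    obtain ⟨_, pb, pd, _⟩ := hp2
    rw [e, List.getLast?_append_of_ne_nil _ (by simp)] at hc
    obtain ⟨r, r1, r2, r3, r4, r5⟩ := ih b c pb hc y1 hy1 y hy
    have hqne : q ≠ [] := by rintro rfl; simp at q2
    have hrne : r ≠ [] := by rintro rfl; simp at r2
    have hne : a ≠ b := hab.ne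
    refine ⟨q ++ r, ?_, ?_, ?_, ?_, ?_⟩
    · rw [pa_append]
      refine ⟨q1, r1, ?_, ?_⟩
      · intro v hv hv2
        refine pd a (by simp) ?_
        have h1 := r5 v hv2
        rw [q4 v hv, hx] at h1
        exact h1
      · intro u hu v hv
        rw [q3] at hu
        rw [r2] at hv
        simp only [Option.mem_def, Option.some.injEq] at hu hv
        rw [← hu, ← hv]; exact hxy
    · rw [List.head?_append_of_ne_nil _ hqne, q2]
    · rw [List.getLast?_append_of_ne_nil _ hrne, r3]
    · have h5 := chg_append π q r x1 y1 q3 r2 (by rw [hx1, hy1]; exact hne)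
      simp only [List.length_cons]
      omega
    · intro v hv
      rw [List.mem_append] at hv
      rcases hv with hv | hv
      · rw [q4 v hv, hx]
        simp
      · exact List.mem_cons_of_mem _ (r5 v hv)

/-- circuits of contractions can be lifted, with their edges -/
theorem lift_circuit {s t : E → V} {π : V → V} (hF : FC s t univ π) {l : List V}
    (hl : Ci (nbG (fun e => π (s e)) (fun e => π (t e)) univ) l) :
    ∃ (q : List V) (x y : V), Ci (nbG s t univ) q ∧ q.head? = some x ∧ q.getLast? = some y ∧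
      π y ≠ π x ∧ l.length ≤ chg π q + 1 := by
  obtain ⟨h1, h2, h3⟩ := hl
  rcases l with _ | ⟨a, l⟩
  · simp at h2
  · obtain ⟨c, hc⟩ : ∃ c, (a :: l).getLast? = some c := by
      rw [List.getLast?_cons]; exact ⟨_, rfl⟩
    have hca := h3 c (by rw [hc]; rfl) a (by simp)
    obtain ⟨y, x, hy, hx, hyx⟩ := Lft.adj hca
    obtain ⟨q, q1, q2, q3, q4, _⟩ := lift_path hF l a c h1 hc x hx y hy
    have hlen : ∀ q : List V, chg π q + 1 ≤ q.length ∨ q = [] := by
      intro q
      rcases q with _ | ⟨u, q⟩
      · exact Or.inr rfl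
      · left
        induction q generalizing u with
        | nil => simp [chg]
        | cons w q ih =>
          have h5 := ih w
          simp only [chg, List.length_cons] at h5 ⊢
          split_ifs <;> omega
    refine ⟨q, x, y, ⟨q1, ?_, ?_⟩, q2, q3, ?_, by simpa using q4⟩
    · rcases hlen q with h5 | h5
      · simp only [List.length_cons] at h2; omega
      · subst h5; simp at q2
    · intro u hu v hv
      rw [q3] at hu
      rw [q2] at hv
      simp only [Option.mem_def, Option.some.injEq] at hu hv
      rw [← hu, ← hv]; exact hyx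
    · rw [hy, hx]
      exact hca.ne

/-- the edge set `S` contains all edges of each cycle which has at most four edges outside of `S` -/
def Cl (s t : E → V) (S : Finset E) : Prop :=
  ∀ C : Finset E, (∀ w, Even (Pool.Agent.TH362.TF.deg s t C w)) → (C \ S).card ≤ 4 → C ⊆ S

open Classical in
/-- some circuit has more than `m` edges outside of the least set `S` with `Cl s t S` -/
def Long (m : ℕ) (s t : E → V) : Prop :=
  ∃ (n : ℕ) (v : ℕ → V) (e : ℕ → E), (∀ i < n, ∀ j < n, v i = v j → i = j) ∧
    (∀ i < n, Ends s t (v i) (v ((i + 1) % n)) (e i)) ∧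
    m < ((range n).filter (fun i => ¬ ∀ S, Cl s t S → e i ∈ S)).card

theorem cl_loops {s t : E → V} {σ : V → V}
    (hM : Mc (fun e => σ (s e)) (fun e => σ (t e)) univ) :
    Cl s t (univ.filter (fun e => σ (s e) = σ (t e))) := by
  classical
  intro C hC h4 e he
  by_contra hno
  set L := univ.filter (fun e => σ (s e) = σ (t e)) with hL
  have h1 : ∀ w, Even (Pool.Agent.TH362.TF.deg (fun e => σ (s e)) (fun e => σ (t e)) (C \ L) w) := by
    intro w
    have h2 := even_quot hC σ w
    have h3 : Pool.Agent.TH362.TF.deg (fun e => σ (s e)) (fun e => σ (t e)) C w =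
        Pool.Agent.TH362.TF.deg (fun e => σ (s e)) (fun e => σ (t e)) (C \ L) w +
        Pool.Agent.TH362.TF.deg (fun e => σ (s e)) (fun e => σ (t e)) (C ∩ L) w := by
      unfold TH362.TF.deg
      rw [← Finset.sum_union (Finset.disjoint_sdiff_inter C L), Finset.sdiff_union_inter]
    have h5 : Even (Pool.Agent.TH362.TF.deg (fun e => σ (s e)) (fun e => σ (t e)) (C ∩ L) w) := by
      unfold TH362.TF.deg
      refine Finset.sum_induction _ Even (fun a b => Even.add) (by simp) ?_
      intro f hf
      have h6 : σ (s f) = σ (t f) := (mem_filter.1 (mem_inter.1 hf).2).2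
      simp only [h6]
      exact ⟨_, rfl⟩
    rw [h3] at h2
    exact (Nat.even_add.1 h2).2 h5
  exact hno (mem_filter.2 ⟨mem_univ _, Mc_short hM (subset_univ _) h1 h4 (mem_sdiff.2 ⟨he, hno⟩)⟩)

theorem long_of {s t : E → V} {σ : V → V} (hF : FC s t univ σ)
    (hM : Mc (fun e => σ (s e)) (fun e => σ (t e)) univ) {l : List V} {m : ℕ}
    (hl : Ci (nbG (fun e => σ (s e)) (fun e => σ (t e)) univ) l) (h13 : m < l.length) :
    Long m s t := by
  classical
  obtain ⟨q, x, y, hq, hx, hy, hyx, hlen⟩ := lift_circuit hF hl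
  have h3 := hq.2.1
  have hpos : 0 < q.length := by omega
  set v : ℕ → V := fun i => q.getD i x with hv
  have hadj : ∀ i < q.length, (nbG s t univ).Adj (v i) (v ((i + 1) % q.length)) := by
    intro i hi
    have hj : (i + 1) % q.length < q.length := Nat.mod_lt _ hpos
    simp only [hv, List.getD_eq_getElem?_getD, List.getElem?_eq_getElem hi,
      List.getElem?_eq_getElem hj, Option.getD_some]
    exact adj_ix hq (List.getElem?_eq_getElem hi) (List.getElem?_eq_getElem hj) (by
      unfold Ai
      rcases Nat.lt_or_ge (i + 1) q.length with h | h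
      · left; exact Nat.mod_eq_of_lt h
      · right; right; left
        have : i + 1 = q.length := by omega
        exact ⟨this, by rw [this, Nat.mod_self]⟩)
  have he : ∀ i, ∃ e : E, i < q.length → Ends s t (v i) (v ((i + 1) % q.length)) e := by
    intro i
    by_cases hi : i < q.length
    · obtain ⟨_, e, _, he⟩ := hadj i hi
      exact ⟨e, fun _ => he⟩
    · obtain ⟨_, e, _, _⟩ := hadj 0 hpos
      exact ⟨e, fun h => absurd h hi⟩
  choose e he using he
  refine ⟨q.length, v, e, ?_, fun i hi => he i hi, ?_⟩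
  · intro i hi j hj hij
    simp only [hv, List.getD_eq_getElem?_getD, List.getElem?_eq_getElem hi,
      List.getElem?_eq_getElem hj, Option.getD_some] at hij
    exact (List.Nodup.getElem_inj_iff hq.1.1).mp hij
  · have h0 : v 0 = x := by
      rcases q with _ | ⟨a, q⟩
      · simp at hpos
      · simpa [hv] using hx
    have h9 : v (q.length - 1) = y := by
      rw [List.getLast?_eq_getElem?] at hy
      simp only [hv, List.getD_eq_getElem?_getD, hy, Option.getD_some]
    have hsum : ∑ i ∈ range q.length, (if σ (v i) = σ (v ((i + 1) % q.length)) then 0 else 1) =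
        chg σ q + 1 := by
      have e1 : q.length = (q.length - 1) + 1 := by omega
      rw [chg_eq σ x q]
      conv_lhs => rw [e1]
      rw [Finset.sum_range_succ]
      have e2 : (q.length - 1 + 1) % q.length = 0 := by
        rw [← e1, Nat.mod_self]
      congr 1
      · refine Finset.sum_congr rfl fun i hi => ?_
        rw [Finset.mem_range] at hi
        have e3 : (i + 1) % (q.length - 1 + 1) = i + 1 := Nat.mod_eq_of_lt (by omega)
        rw [e3]
      · rw [← e1, Nat.mod_self, h0, h9, if_neg hyx]
    have hcard : ∑ i ∈ range q.length,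
        (if σ (v i) = σ (v ((i + 1) % q.length)) then 0 else 1) ≤
        ((range q.length).filter (fun i => ¬ ∀ S, Cl s t S → e i ∈ S)).card := by
      rw [Finset.card_filter]
      refine Finset.sum_le_sum fun i hi => ?_
      rw [Finset.mem_range] at hi
      by_cases h5 : σ (v i) = σ (v ((i + 1) % q.length))
      · rw [if_pos h5]; exact Nat.zero_le _
      · rw [if_neg h5, if_pos]
        intro hS
        have h6 := (mem_filter.1 (hS _ (cl_loops hM))).2
        apply h5
        rcases he i hi with ⟨b1, b2⟩ | ⟨b1, b2⟩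
        · rw [← b1, ← b2]; exact h6
        · rw [← b1, ← b2]; exact h6.symm
    omega

/-- the dichotomy -/
theorem dich {s t : E → V} (hm : ¬ Long 13 s t) (π : V → V) (hπ : FC s t univ π)
    (h1 : N1 (fun e => π (s e)) (fun e => π (t e)) univ) :
    NZ (fun e => π (s e)) (fun e => π (t e)) univ ∨
      PQ (fun e => π (s e)) (fun e => π (t e)) univ := by
  by_contra hno
  rw [not_or] at hno
  obtain ⟨ρ, hρ, hM⟩ := exists_Mc _ _ univ h1 hno.1 hno.2
  have hF := fc_comp hπ hρ
  have hM' : Mc (fun e => (fun v => ρ (π v)) (s e)) (fun e => (fun v => ρ (π v)) (t e)) univ := hM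
  have H := leaves
  rcases main13 H.1 H.2.1 H.2.2.1 H.2.2.2.1 H.2.2.2.2 _ _ univ hM'.n1 (fun l hl => by
    by_contra hlt
    exact hm (long_of hF hM' hl (by omega))) with h2 | h2
  · exact hM'.nz h2
  · exact hM'.pq h2

theorem cov_circ (s t : E → V) (hn : N1 s t univ) (hm : ¬ Long 13 s t) : Cov s t :=
  cov_gen s t hn fun π hπ h1 => dich hm π hπ h1

theorem fv_circ (s t : E → V) (hn : N1 s t univ) (hm : ¬ Long 13 s t) : Fv s t :=
  fv_gen s t hn fun π hπ h1 => dich hm π hπ h1

end Pool.Agent.H14.QF.Circ
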