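import Pool.Agent.Results.MP_e6539c_co.LongCircuits
import Pool.Graph.R_pool_sql_team_seeded_9f66d723.W5h14.Circ.Coc

/-!
# Circuits of a graph as cocircuits of its cographic matroid, with the local edges
-/

set_option autoImplicit false
set_option linter.unusedSectionVars false

namespace Pool.Agent.H14.QF.Coc

open Finset Pool.Agent.TH462.T4 Pool.Agent.TH676.T4 Pool.Agent.TH676.Blk Pool.Agent.W5h14.Circ

variable {V E : Type} [Fintype V] [DecidableEq V] [Fintype E] [DecidableEq E]

/-- a circuit of the graph is a cocircuit of the matroid -/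
theorem coc_of_circ {src dst : E → V} {n : ℕ} {vec : E → Fin n → ZMod 2}
    {S : Set (Fin n → ZMod 2)}
    (hv : RepCo src dst vec) (hinj : Function.Injective vec) (hr : Set.range vec = S) {k : ℕ}
    (hk : 3 ≤ k) {c : ℕ → V} {ε : ℕ → E} (hc : PC (Ad src dst) k c)
    (hε : ∀ i, JV src dst (ε i) (c i) (c (i + 1))) :
    ∃ G : (Fin n → ZMod 2) →ₗ[ZMod 2] ZMod 2,
      {s ∈ S | G s ≠ 0} = (((range k).image (fun i => vec (ε i)) : Finset _) : Set _) ∧
      (∀ i j, i < k → j < k → vec (ε i) = vec (ε j) → i = j) ∧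
      {s ∈ S | G s ≠ 0}.Nonempty ∧
      (∀ f' : (Fin n → ZMod 2) →ₗ[ZMod 2] ZMod 2, {s ∈ S | f' s ≠ 0} ⊆ {s ∈ S | G s ≠ 0} →
        {s ∈ S | f' s ≠ 0}.Nonempty → {s ∈ S | f' s ≠ 0} = {s ∈ S | G s ≠ 0}) := by
  classical
  -- the edges are different
  have hεi : ∀ i j, i < k → j < k → ε i = ε j → i = j := by
    intro i j hi hj hij
    have h1 := hε i
    have h2 := hε j
    rw [← hij] at h2
    have h3 : (c i = c j ∧ c (i + 1) = c (j + 1)) ∨ (c i = c (j + 1) ∧ c (i + 1) = c j) := by
      rcases h1 with ⟨a1, a2⟩ | ⟨a1, a2⟩ <;> rcases h2 with ⟨b1, b2⟩ | ⟨b1, b2⟩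
      · exact Or.inl ⟨a1.symm.trans b1, a2.symm.trans b2⟩
      · exact Or.inr ⟨a1.symm.trans b1, a2.symm.trans b2⟩
      · exact Or.inr ⟨a2.symm.trans b2, a1.symm.trans b1⟩
      · exact Or.inl ⟨a2.symm.trans b2, a1.symm.trans b1⟩
    rcases h3 with ⟨h3, _⟩ | ⟨h3, h4⟩
    · exact hc.inj i j hi hj h3
    · exfalso
      rw [hc.eq_iff] at h3 h4
      have e1 : i ≡ j + 1 [MOD k] := h3
      have e2 : i + 1 ≡ j [MOD k] := h4
      have e3 : j + 2 ≡ j + 0 [MOD k] := (e1.add_right 1).symm.trans e2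
      have e4 : 2 ≡ 0 [MOD k] := Nat.ModEq.add_left_cancel' j e3
      have e5 : 2 % k = 0 % k := e4
      rw [Nat.mod_eq_of_lt (by omega), Nat.zero_mod] at e5
      omega
  -- the even set
  let a : E → ZMod 2 := fun e => if ∃ i < k, ε i = e then 1 else 0
  have hsum : ∀ (F : E → ZMod 2), (∀ e, F e ≠ 0 → ∃ i < k, ε i = e) →
      ∑ e, F e = ∑ i ∈ range k, F (ε i) := by
    intro F hF
    have h1 : ∑ i ∈ range k, F (ε i) = ∑ e ∈ (range k).image ε, F e := by
      rw [sum_image]
      intro i hi j hj hij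
      exact hεi i j (by simpa using hi) (by simpa using hj) hij
    rw [h1]
    symm
    refine sum_subset (subset_univ _) fun e _ he => ?_
    by_contra h2
    obtain ⟨i, hi, rfl⟩ := hF e h2
    exact he (mem_image_of_mem _ (mem_range.2 hi))
  have haε : ∀ i < k, a (ε i) = 1 := fun i hi => if_pos ⟨i, hi, rfl⟩
  have haeven : ∀ v, ∑ e, a e * star src dst v e = 0 := by
    intro v
    rw [hsum (fun e => a e * star src dst v e) (fun e he => by
      by_contra h2
      have : a e = 0 := if_neg h2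
      rw [this, zero_mul] at he
      exact he rfl)]
    have h1 : ∀ i ∈ range k, a (ε i) * star src dst v (ε i) =
        (if c i = v then 1 else 0) + (if c (i + 1) = v then 1 else 0) := by
      intro i hi
      rw [haε i (mem_range.1 hi), one_mul, star_jv (hε i)]
    rw [sum_congr rfl h1, sum_add_distrib]
    have h2 : ∑ i ∈ range k, (if c (i + 1) = v then (1 : ZMod 2) else 0) =
        ∑ i ∈ range k, (if c i = v then (1 : ZMod 2) else 0) := by
      have h3 := sum_range_succ' (fun i => if c i = v then (1 : ZMod 2) else 0) k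
      have h4 := sum_range_succ (fun i => if c i = v then (1 : ZMod 2) else 0) k
      rw [h4] at h3
      have h5 : c k = c 0 := by
        have := hc.per 0
        rwa [Nat.zero_add] at this
      rw [h5] at h3
      exact (add_right_cancel h3).symm
    rw [h2]
    exact CharTwo.add_self_eq_zero _
  obtain ⟨G, hG⟩ := RepCo.form hv a haeven
  have hD : {s ∈ S | G s ≠ 0} = (((range k).image (fun i => vec (ε i)) : Finset _) : Set _) := by
    ext s
    rw [← hr]
    simp only [coe_image, coe_range, Set.mem_image, Set.mem_Iio]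
    constructor
    · rintro ⟨⟨e, rfl⟩, h1⟩
      rw [hG] at h1
      have h2 : ∃ i < k, ε i = e := by
        by_contra h2
        exact h1 (if_neg h2)
      obtain ⟨i, hi, rfl⟩ := h2
      exact ⟨i, hi, rfl⟩
    · rintro ⟨i, hi, rfl⟩
      refine ⟨⟨_, rfl⟩, ?_⟩
      rw [hG, haε i hi]
      exact one_ne_zero
  have hinj2 : ∀ i j, i < k → j < k → vec (ε i) = vec (ε j) → i = j :=
    fun i j hi hj hij => hεi i j hi hj (hinj hij)
  refine ⟨G, hD, hinj2, ?_, ?_⟩
  · rw [hD]
    exact ⟨vec (ε 0), by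
      simp only [coe_image, coe_range, Set.mem_image, Set.mem_Iio]
      exact ⟨0, by omega, rfl⟩⟩
  · intro f' hsub hne
    -- the values are constant
    have hstep : ∀ i, i + 1 < k → f' (vec (ε (i + 1))) = f' (vec (ε i)) := by
      intro i hi
      have h1 := RepCo.even hv f' (c (i + 1))
      rw [hsum (fun e => f' (vec e) * star src dst (c (i + 1)) e) (fun e he => by
        have h2 : f' (vec e) ≠ 0 := fun h3 => he (by rw [h3, zero_mul])
        have h3 : vec e ∈ {s ∈ S | G s ≠ 0} := hsub ⟨by rw [← hr]; exact ⟨e, rfl⟩, h2⟩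
        have h4 := h3.2
        rw [hG] at h4
        by_contra h5
        exact h4 (if_neg h5))] at h1
      have h2 : ∀ j ∈ range k, f' (vec (ε j)) * star src dst (c (i + 1)) (ε j) =
          (if j = i + 1 then f' (vec (ε (i + 1))) else 0) + (if j = i then f' (vec (ε i)) else 0) := by
        intro j hj
        rw [mem_range] at hj
        rw [star_jv (hε j), mul_add]
        congr 1
        · by_cases h3 : j = i + 1
          · subst h3; simp
          · have h4 : c j ≠ c (i + 1) := fun h4 => h3 (hc.inj _ _ hj hi h4)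
            rw [if_neg h4, if_neg h3, mul_zero]
        · by_cases h3 : j = i
          · subst h3; simp
          · have h4 : c (j + 1) ≠ c (i + 1) := by
              intro h4
              rw [hc.eq_iff] at h4
              have h5 : j % k = i % k := Nat.ModEq.add_right_cancel' 1 h4
              rw [Nat.mod_eq_of_lt hj, Nat.mod_eq_of_lt (by omega)] at h5
              exact h3 h5
            rw [if_neg h4, if_neg h3, mul_zero]
      rw [sum_congr rfl h2, sum_add_distrib, sum_ite_eq', sum_ite_eq', if_pos (mem_range.2 hi),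
        if_pos (mem_range.2 (by omega))] at h1
      exact z2_add h1
    have hconst : ∀ i, i < k → f' (vec (ε i)) = f' (vec (ε 0)) := by
      intro i
      induction i with
      | zero => intro _; rfl
      | succ i ih =>
        intro hi
        rw [hstep i hi]
        exact ih (by omega)
    refine Set.Subset.antisymm hsub fun s hs => ?_
    obtain ⟨t, ht⟩ := hne
    have ht2 := hsub ht
    rw [hD] at hs ht2
    simp only [coe_image, coe_range, Set.mem_image, Set.mem_Iio] at hs ht2
    obtain ⟨i, hi, rfl⟩ := hs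
    obtain ⟨j, hj, rfl⟩ := ht2
    refine ⟨by rw [← hr]; exact ⟨_, rfl⟩, ?_⟩
    have h1 := ht.2
    rw [hconst j hj] at h1
    rw [hconst i hi]
    exact h1

/-- The element `x` is local in the matroid represented by `S`: it is in every set `F` such that the
support of each linear form with at most four elements outside of `F` is contained in `F`. -/
def MLocal {n : ℕ} (S : Set (Fin n → ZMod 2)) (x : Fin n → ZMod 2) : Prop :=
  ∀ F : Set (Fin n → ZMod 2), (∀ f : (Fin n → ZMod 2) →ₗ[ZMod 2] ZMod 2,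
    ({s ∈ S | f s ≠ 0} \ F).ncard ≤ 4 → {s ∈ S | f s ≠ 0} ⊆ F) → x ∈ F

theorem cycle_of_form {src dst : E → V} {n : ℕ} {vec : E → Fin n → ZMod 2}
    (hv : RepCo src dst vec) (f : (Fin n → ZMod 2) →ₗ[ZMod 2] ZMod 2) :
    TH362.Multi.IsCycle src dst {e | f (vec e) ≠ 0} := by
  classical
  intro v
  have h1 := RepCo.even hv f v
  have h2 : {e | f (vec e) ≠ 0} = ((univ.filter (fun e => f (vec e) ≠ 0) : Finset E) : Set E) := by
    ext e; simp
  rw [h2, TH362.TF.Cyc.degree_eq, ← ZMod.natCast_eq_zero_iff_even]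
  push_cast
  refine Eq.trans ?_ h1
  rw [Finset.sum_filter]
  refine sum_congr rfl fun e _ => ?_
  unfold TH676.Blk.star
  by_cases h3 : f (vec e) = 0
  · rw [if_neg (not_not.2 h3), h3, zero_mul]
  · rw [if_pos h3]
    have h4 : f (vec e) = 1 := by
      revert h3
      generalize f (vec e) = y
      revert y
      decide
    rw [h4, one_mul]

theorem local_of {src dst : E → V} {n : ℕ} {vec : E → Fin n → ZMod 2}
    {S : Set (Fin n → ZMod 2)} (hv : RepCo src dst vec) (hinj : Function.Injective vec)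
    (hr : Set.range vec = S) {e : E} (h : MLocal S (vec e)) : H14.QF.Mn.IsLocal src dst e := by
  classical
  intro S0 hS0
  have h1 := h (vec '' S0) ?_
  · obtain ⟨e', he', h2⟩ := h1
    rwa [← hinj h2]
  · intro f hf
    have h2 : {s ∈ S | f s ≠ 0} \ vec '' S0 = vec '' ({e | f (vec e) ≠ 0} \ S0) := by
      ext x
      constructor
      · rintro ⟨⟨h3, h4⟩, h5⟩
        rw [← hr] at h3
        obtain ⟨e, rfl⟩ := h3
        exact ⟨e, ⟨h4, fun h6 => h5 ⟨e, h6, rfl⟩⟩, rfl⟩
      · rintro ⟨e, ⟨h3, h4⟩, rfl⟩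
        refine ⟨⟨by rw [← hr]; exact ⟨e, rfl⟩, h3⟩, ?_⟩
        rintro ⟨e', h5, h6⟩
        exact h4 (hinj h6 ▸ h5)
    rw [h2, Set.ncard_image_of_injective _ hinj] at hf
    have h3 := hS0 _ (cycle_of_form hv f) hf
    rintro x ⟨h4, h5⟩
    rw [← hr] at h4
    obtain ⟨e, rfl⟩ := h4
    exact ⟨e, h3 h5, rfl⟩

theorem pm_of {src dst : E → V} (h : H14.QF.Mn.HasPetersenMinor src dst) :
    TH499.TF.PM src dst := by
  classical
  obtain ⟨B, h1, h2, h3⟩ := h
  refine ⟨fun i => (B i).toFinset, fun i => ?_, fun i j hij => ?_, fun i j hij => ?_⟩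
  · obtain ⟨-, hl⟩ := h1 i
    intro A hA hAn hAne
    obtain ⟨a, ha⟩ := hAn
    obtain ⟨b, hb, hbA⟩ : ∃ b ∈ (B i).toFinset, b ∉ A := by
      by_contra hno
      push Not at hno
      exact hAne (Subset.antisymm hA hno)
    have key : ∀ z, TH362.Multi.Linked src dst {e | src e ∈ B i ∧ dst e ∈ B i} a z → z ∉ A →
        ∃ e a b, a ∈ A ∧ b ∈ (B i).toFinset ∧ b ∉ A ∧ TH499.TF.Joins src dst e a b := by
      intro z hz
      unfold TH362.Multi.Linked at hz
      induction hz with
      | refl => intro h5; exact absurd ha h5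
      | @tail p q _ hst ih =>
        intro hq
        by_cases hp : p ∈ A
        · obtain ⟨e, ⟨he1, he2⟩, hE⟩ := hst
          have hqB : q ∈ B i := by
            rcases hE with ⟨_, h6⟩ | ⟨h6, _⟩
            · rw [← h6]; exact he2
            · rw [← h6]; exact he1
          refine ⟨e, p, q, hp, Set.mem_toFinset.2 hqB, hq, ?_⟩
          rcases hE with ⟨h5, h6⟩ | ⟨h5, h6⟩
          · exact Or.inl ⟨h5, h6⟩
          · exact Or.inr ⟨h5, h6⟩
        · exact ih hp
    exact key b (hl a (Set.mem_toFinset.1 (hA ha)) b (Set.mem_toFinset.1 hb)) hbA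
  · rw [Finset.disjoint_left]
    intro x hx hy
    rw [Set.mem_toFinset] at hx hy
    exact Set.disjoint_left.1 (h2 i j hij) hx hy
  · obtain ⟨e, h4 | h4⟩ := h3 i j hij
    · exact ⟨e, src e, dst e, Set.mem_toFinset.2 h4.1, Set.mem_toFinset.2 h4.2, Or.inl ⟨rfl, rfl⟩⟩
    · exact ⟨e, dst e, src e, Set.mem_toFinset.2 h4.2, Set.mem_toFinset.2 h4.1, Or.inr ⟨rfl, rfl⟩⟩

/-- the matroid form of the theorem on graphs -/
theorem nz_of_coc {src dst : E → V} {n : ℕ} {vec : E → Fin n → ZMod 2}
    {S : Set (Fin n → ZMod 2)} (hv : RepCo src dst vec) (hinj : Function.Injective vec)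
    (hr : Set.range vec = S) (h0 : ∀ e, vec e ≠ 0) (hPM : ¬ TH499.TF.PM src dst)
    (h : ∀ f : (Fin n → ZMod 2) →ₗ[ZMod 2] ZMod 2, {s ∈ S | f s ≠ 0}.Nonempty →
      (∀ f' : (Fin n → ZMod 2) →ₗ[ZMod 2] ZMod 2, {s ∈ S | f' s ≠ 0} ⊆ {s ∈ S | f s ≠ 0} →
        {s ∈ S | f' s ≠ 0}.Nonempty → {s ∈ S | f' s ≠ 0} = {s ∈ S | f s ≠ 0}) →
      {s ∈ {s ∈ S | f s ≠ 0} | ¬ MLocal S s}.ncard ≤ 15) : TH499.TF.NZ src dst := by
  classical
  have hn : TH362.TF.N1 src dst univ := by
    intro x hx
    apply RepCo.br hv h0 (univ.filter (fun v => x v = true))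
    rw [← hx]
    congr 1
    ext e
    simp only [TH499.TF.dlt, TH362.TF.cut, mem_filter, mem_univ, true_and]
    cases x (src e) <;> cases x (dst e) <;> simp
  have key : H14.QF.Mn.TwoCycles src dst := by
    refine H14.QF.Mn.principle (m := 15) (by norm_num) hn (fun hP => hPM (pm_of hP)) ?_
      fun s' t' h1 h2 h3 => Results.MP_e6539c_co.LongCircuits.base s' t' h1 h2 h3
    rintro ⟨k, v, e, hvi, he, hcard⟩
    change 15 < {i | i < k ∧ ¬ H14.QF.Mn.IsLocal src dst (e i)}.ncard at hcard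
    have hk : 16 ≤ k := by
      have h1 : {i | i < k ∧ ¬ H14.QF.Mn.IsLocal src dst (e i)}.ncard ≤
          ((range k : Finset ℕ) : Set ℕ).ncard :=
        Set.ncard_le_ncard (fun i hi => by simpa using hi.1)
      rw [Set.ncard_coe_finset, card_range] at h1
      omega
    have hmod : ∀ i, (i % k + 1) % k = (i + 1) % k := fun i => by
      rw [Nat.mod_add_mod]
    have hJ : ∀ i, JV src dst (e (i % k)) (v (i % k)) (v ((i + 1) % k)) := by
      intro i
      have h1 := he (i % k) (Nat.mod_lt _ (by omega))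
      rw [hmod] at h1
      exact h1
    have hc : PC (Ad src dst) k (fun i => v (i % k)) := by
      refine ⟨by omega, fun i => ?_, fun i j hi hj hij => ?_, fun i => ⟨fun h1 => ?_, _, hJ i⟩⟩
      · show v ((i + k) % k) = v (i % k)
        rw [Nat.add_mod_right]
      · have h1 := hvi _ (Nat.mod_lt _ (by omega)) _ (Nat.mod_lt _ (by omega)) hij
        rwa [Nat.mod_eq_of_lt hi, Nat.mod_eq_of_lt hj] at h1
      · have h2 := hvi _ (Nat.mod_lt _ (by omega)) _ (Nat.mod_lt _ (by omega)) h1
        have h3 : i + 0 ≡ i + 1 [MOD k] := h2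
        have h4 : 0 ≡ 1 [MOD k] := Nat.ModEq.add_left_cancel' i h3
        have h5 : 0 % k = 1 % k := h4
        rw [Nat.zero_mod, Nat.mod_eq_of_lt (by omega)] at h5
        omega
    obtain ⟨G, hG1, hG2, hG3, hG4⟩ := coc_of_circ (c := fun i => v (i % k))
      (ε := fun i => e (i % k)) hv hinj hr (by omega) hc hJ
    have h5 := h G hG3 hG4
    have h6 : (fun i => vec (e i)) '' {i | i < k ∧ ¬ H14.QF.Mn.IsLocal src dst (e i)} ⊆
        {s ∈ {s ∈ S | G s ≠ 0} | ¬ MLocal S s} := by
      rintro _ ⟨i, ⟨hi, hloc⟩, rfl⟩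
      refine ⟨?_, fun h7 => hloc (local_of hv hinj hr h7)⟩
      rw [hG1]
      simp only [coe_image, coe_range, Set.mem_image, Set.mem_Iio]
      exact ⟨i, hi, by rw [Nat.mod_eq_of_lt hi]⟩
    have hfin : {s ∈ {s ∈ S | G s ≠ 0} | ¬ MLocal S s}.Finite := by
      refine Set.Finite.subset ?_ (Set.sep_subset _ _)
      rw [hG1]
      exact Finset.finite_toSet _
    have h8 := Set.ncard_le_ncard h6 hfin
    rw [Set.InjOn.ncard_image] at h8
    · omega
    · intro i hi j hj hij
      refine hG2 i j hi.1 hj.1 ?_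
      simp only [Nat.mod_eq_of_lt hi.1, Nat.mod_eq_of_lt hj.1]
      exact hij
  obtain ⟨φ, h1, h2⟩ := H14.QF.Mn.nz_of_two key
  exact ⟨φ, fun e => h1 e (mem_univ e), fun x => h2 x⟩

end Pool.Agent.H14.QF.Coc
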