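import Pool.Graph.R_pool_sql_team_seeded_63374d34.N393.C13.All
import Pool.Graph.R_pool_sql_team_seeded_63374d34.N410.DC.Part
import Pool.Graph.R_pool_sql_team_seeded_ab47071d.TH362.FO.Alt
import Pool.Graph.R_pool_sql_team_seeded_9f66d723.W5h8.M9D

set_option autoImplicit false
set_option linter.unusedSectionVars false

/-!
# Quadruple covers and oriented five-cycle double covers of classes closed under contraction
-/

namespace Pool.Agent.H14.QF

open Finset Pool.Agent.R140.PK Pool.Agent.TH362.TF Pool.Agent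

variable {V E : Type} [Fintype V] [DecidableEq V] [Fintype E] [DecidableEq E]

theorem cov_gen (s t : E → V) (hn : N1 s t univ)
    (H : ∀ π : V → V, FC s t univ π → N1 (fun e => π (s e)) (fun e => π (t e)) univ →
      NZ (fun e => π (s e)) (fun e => π (t e)) univ ∨
        PQ (fun e => π (s e)) (fun e => π (t e)) univ) :
    Cov s t := by
  classical
  by_contra hcon
  obtain ⟨π, hπ, hM⟩ := exists_MinP Cov s t hn hcon
  rcases H π hπ hM.n1 with h1 | h1
  · exact hM.np (cov_of_nz h1)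
  · obtain ⟨κ, c, hc⟩ := hM.pet h1 (fun A1 A2 a1 a2 b1 b2 b3 b4 b5 b6 b7 =>
      cov_sum A1 A2 a1 a2 b1 b2 b3 b4 b5 b6 b7)
    obtain ⟨h2, h3⟩ := hc.conn
    exact hM.np (cov_pet hc (hM.mn _ _ (mem_image_of_mem _ (mem_univ _)) h2 h3))

theorem fv_gen (s t : E → V) (hn : N1 s t univ)
    (H : ∀ π : V → V, FC s t univ π → N1 (fun e => π (s e)) (fun e => π (t e)) univ →
      NZ (fun e => π (s e)) (fun e => π (t e)) univ ∨
        PQ (fun e => π (s e)) (fun e => π (t e)) univ) :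
    Fv s t := by
  classical
  by_contra hcon
  obtain ⟨π, hπ, hM⟩ := exists_MinP Fv s t hn hcon
  rcases H π hπ hM.n1 with h1 | h1
  · exact hM.np (fv_of_nz h1)
  · obtain ⟨κ, c, hc⟩ := hM.pet h1 (fun A1 A2 a1 a2 b1 b2 b3 b4 b5 b6 b7 =>
      fv_sum A1 A2 a1 a2 b1 b2 b3 b4 b5 b6 b7)
    obtain ⟨h2, h3⟩ := hc.conn
    exact hM.np (fv_pet hc (hM.mn _ _ (mem_image_of_mem _ (mem_univ _)) h2 h3))

/-- there are no nine disjoint edges outside of the short cycles -/
def Nine (s t : E → V) : Prop :=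
  ¬ ∃ f : Fin 9 → E, (∀ i, ∀ C : Finset E,
    (∀ v, Even (Pool.Agent.TH362.TF.deg s t C v)) → f i ∈ C → 5 ≤ C.card) ∧
    ∀ i j, i ≠ j → Disjoint ({s (f i), t (f i)} : Set V) {s (f j), t (f j)}

theorem alt_nine (s t : E → V) (hm : Nine s t) (π : V → V)
    (h1 : N1 (fun e => π (s e)) (fun e => π (t e)) univ) :
    NZ (fun e => π (s e)) (fun e => π (t e)) univ ∨
      PQ (fun e => π (s e)) (fun e => π (t e)) univ := by
  refine W5h8.M9.match_nine_short _ _ univ h1 ?_
  rintro ⟨f, hf, hd⟩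
  refine hm ⟨f, fun i C hC hi => (hf i).2 C (subset_univ _) ?_ hi, fun i j hij => ?_⟩
  · exact fun w => W5h8.M9.even_quot (s := s) (t := t) (C := C) hC π w
  · have h2 := hd i j hij
    rw [Set.disjoint_left] at h2 ⊢
    rintro x (rfl | rfl) (h3 | h3)
    · exact h2 (Or.inl rfl) (Or.inl (congrArg π h3))
    · exact h2 (Or.inl rfl) (Or.inr (congrArg π h3))
    · exact h2 (Or.inr rfl) (Or.inl (congrArg π h3))
    · exact h2 (Or.inr rfl) (Or.inr (congrArg π h3))

theorem cov_nine (s t : E → V) (hn : N1 s t univ) (hm : Nine s t) : Cov s t :=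
  cov_gen s t hn fun π _ h1 => alt_nine s t hm π h1

theorem fv_nine (s t : E → V) (hn : N1 s t univ) (hm : Nine s t) : Fv s t :=
  fv_gen s t hn fun π _ h1 => alt_nine s t hm π h1

theorem cov_fam (s t : E → V) (hn : N1 s t univ) (h : ¬ TH362.FO.Fam s t univ 13) : Cov s t :=
  cov_gen s t hn fun π _ h1 => TH362.FO.alt _ _ univ h1 (Or.inr fun hf => h
    (TH362.FO.Alt.fam_quot (S' := univ) (Subset.refl _) (fun e h h' => absurd h h') hf))

theorem fv_fam (s t : E → V) (hn : N1 s t univ) (h : ¬ TH362.FO.Fam s t univ 13) : Fv s t :=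
  fv_gen s t hn fun π _ h1 => TH362.FO.alt _ _ univ h1 (Or.inr fun hf => h
    (TH362.FO.Alt.fam_quot (S' := univ) (Subset.refl _) (fun e h h' => absurd h h') hf))

end Pool.Agent.H14.QF
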