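import Pool.Agent.H14.QF.Circ
import Pool.Graph.R_seed8.TH362.TF.Multi
import Pool.Graph.R_seed8.TH362.TF.Contr
import Pool.Graph.R_seed8.TH362.TF.Cyc

/-!
# Contraction of the short cycles in graphs without a Petersen minor
-/

set_option autoImplicit false
set_option linter.unusedSectionVars false

namespace Pool.Agent.H14.QF.Mn

open Finset Relation Pool.Agent.TH362.TF Pool.Agent.TH362.TF.Four Pool.Agent.R145.Cir
  Pool.Agent.R890.FF Pool.Agent.R140.PK Pool.Agent.N393.C13 Pool.Agent.W5h8.M9
  Pool.Agent.H14.QF.Circ Pool.Agent.TH362.Multi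

/-- The graph has a Petersen graph minor: there are ten disjoint connected vertex sets, one for each
of the ten pairs of elements of `Fin 5`, such that some edge joins the sets of disjoint pairs. -/
def HasPetersenMinor {V E : Type} (s t : E → V) : Prop :=
  ∃ B : {p : Finset (Fin 5) // p.card = 2} → Set V,
    (∀ i, ConnectedSet s t (B i)) ∧ (∀ i j, i ≠ j → Disjoint (B i) (B j)) ∧
    ∀ i j, Disjoint i.1 j.1 → ∃ e, (s e ∈ B i ∧ t e ∈ B j) ∨ (s e ∈ B j ∧ t e ∈ B i)

/-- The edge set is the union of two cycles. -/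
def TwoCycles {V E : Type} (s t : E → V) : Prop :=
  ∃ C₁ C₂ : Set E, IsCycle s t C₁ ∧ IsCycle s t C₂ ∧ C₁ ∪ C₂ = Set.univ

/-- Some circuit has more than `m` edges with the property `P`: there are `n` different vertices
`v 0, ..., v (n - 1)` such that the edge `e i` joins `v i` and `v (i + 1)` for each `i`, where the
indices are read modulo `n`, and more than `m` of the edges `e 0, ..., e (n - 1)` have the
property `P`. -/
def MoreThan {V E : Type} (s t : E → V) (m : ℕ) (P : E → Prop) : Prop :=
  ∃ (n : ℕ) (v : ℕ → V) (e : ℕ → E), (∀ i < n, ∀ j < n, v i = v j → i = j) ∧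
    (∀ i < n, (s (e i) = v i ∧ t (e i) = v ((i + 1) % n)) ∨
      (s (e i) = v ((i + 1) % n) ∧ t (e i) = v i)) ∧
    m < {i | i < n ∧ P (e i)}.ncard

/-- The edge `e` is local: it is in every edge set `S` such that each cycle with at most four edges
outside of `S` is contained in `S`.  So the local edges form the least set which contains the edges
of all circuits with at most four edges, and the edges of all circuits which have at most four edges
after the contraction of some local edges. -/
def IsLocal {V E : Type} (s t : E → V) (e : E) : Prop :=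
  ∀ S : Set E, (∀ C, IsCycle s t C → (C \ S).ncard ≤ 4 → C ⊆ S) → e ∈ S

theorem minor_of_contracts {V E : Type} {s t : E → V} (h : ContractsToPetersen s t) :
    HasPetersenMinor s t := by
  obtain ⟨B, h1, h2, h3, -⟩ := h
  exact ⟨B, h1, h2, fun i j hij => (h3 i j hij).exists⟩

section
variable {V E : Type} [Fintype V] [DecidableEq V] [Fintype E] [DecidableEq E]

theorem nz_of_two {s t : E → V} (h : TwoCycles s t) : NZ s t univ := by
  classical
  obtain ⟨C₁, C₂, h1, h2, h3⟩ := h
  have key : ∀ C : Set E, IsCycle s t C → ∀ v, ∑ e : E, ((if s e = v then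
      (if e ∈ C then (1 : ZMod 2) else 0) else 0) + (if t e = v then
      (if e ∈ C then (1 : ZMod 2) else 0) else 0)) = 0 := by
    intro C hC v
    have h4 := hC v
    have h5 : C = ((C.toFinset : Finset E) : Set E) := by simp
    rw [h5, Cyc.degree_eq, ← ZMod.natCast_eq_zero_iff_even] at h4
    push_cast at h4
    refine Eq.trans ?_ h4
    rw [← Finset.sum_subset (Finset.subset_univ C.toFinset)]
    · refine Finset.sum_congr rfl fun e he => ?_
      rw [Set.mem_toFinset] at he
      simp [he]
    · intro e _ he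
      rw [Set.mem_toFinset] at he
      simp [he]
  refine ⟨fun e => (if e ∈ C₁ then 1 else 0, if e ∈ C₂ then 1 else 0), fun e _ he => ?_,
    fun v => ?_⟩
  · have he' : e ∈ C₁ ∪ C₂ := by rw [h3]; exact Set.mem_univ _
    rw [Prod.mk_eq_zero] at he
    rcases he' with h4 | h4
    · rw [if_pos h4] at he; exact one_ne_zero he.1
    · rw [if_pos h4] at he; exact one_ne_zero he.2
  · unfold Cons
    ext
    · rw [Prod.fst_sum]
      refine Eq.trans (sum_congr rfl fun e _ => ?_) (key C₁ h1 v)
      by_cases ha : s e = v <;> by_cases hb : t e = v <;> simp [ha, hb]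
    · rw [Prod.snd_sum]
      refine Eq.trans (sum_congr rfl fun e _ => ?_) (key C₂ h2 v)
      by_cases ha : s e = v <;> by_cases hb : t e = v <;> simp [ha, hb]

/-- no isthmus -/
theorem isthmus_of {s t : E → V} (h : N1 s t univ) (e : E) : ¬ Isthmus s t e := by
  classical
  intro hI
  unfold Isthmus at hI
  apply h (fun v => decide (Linked s t {e}ᶜ (s e) v))
  rw [card_eq_one]
  refine ⟨e, ?_⟩
  ext f
  unfold TH362.TF.cut
  rw [mem_filter, mem_singleton]
  constructor
  · rintro ⟨-, h1⟩
    by_contra hne
    apply h1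
    by_cases h2 : Linked s t {e}ᶜ (s e) (s f)
    · have h3 : Linked s t {e}ᶜ (s e) (t f) := h2.tail ⟨f, hne, Or.inl ⟨rfl, rfl⟩⟩
      simp [h2, h3]
    · have h3 : ¬ Linked s t {e}ᶜ (s e) (t f) := fun h4 =>
        h2 (h4.tail ⟨f, hne, Or.inr ⟨rfl, rfl⟩⟩)
      simp [h2, h3]
  · rintro rfl
    refine ⟨mem_univ _, ?_⟩
    have h2 : Linked s t {f}ᶜ (s f) (s f) := Relation.ReflTransGen.refl
    simp [h2, hI]

/-- Petersen minors of contractions -/
theorem minor_lift {s t : E → V} {π : V → V} (hF : FC s t univ π)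
    (h : HasPetersenMinor (fun e => π (s e)) (fun e => π (t e))) : HasPetersenMinor s t := by
  obtain ⟨B, h1, h2, h3⟩ := h
  refine ⟨fun i => {v | π v ∈ B i}, fun i => ⟨?_, ?_⟩, ?_, ?_⟩
  · obtain ⟨j, hj⟩ : ∃ j : {p : Finset (Fin 5) // p.card = 2}, Disjoint i.1 j.1 := by
      revert i
      decide
    obtain ⟨e, h4 | h4⟩ := h3 i j hj
    · exact ⟨s e, h4.1⟩
    · exact ⟨t e, h4.2⟩
  · intro x hx y hy
    have hx' : π x ∈ B i := hx
    have hy' : π y ∈ B i := hy
    have fib : ∀ z w, π z = π w → π z ∈ B i →
        Linked s t {e | s e ∈ {v | π v ∈ B i} ∧ t e ∈ {v | π v ∈ B i}} z w := by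
      intro z w hzw hz
      have h4 := hF z w hzw
      unfold Linked
      induction h4 with
      | refl => exact Relation.ReflTransGen.refl
      | @tail p q _ hst ih =>
        obtain ⟨⟨e, _, hE⟩, hp, hq⟩ := hst
        have hp' : π p = π z := hp
        have hq' : π q = π z := hq
        refine (ih hp'.symm).tail ⟨e, ?_, hE⟩
        rcases hE with ⟨a1, a2⟩ | ⟨a1, a2⟩
        · exact ⟨by show π (s e) ∈ B i; rw [a1, hp']; exact hz,
            by show π (t e) ∈ B i; rw [a2, hq']; exact hz⟩
        · exact ⟨by show π (s e) ∈ B i; rw [a1, hq']; exact hz,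
            by show π (t e) ∈ B i; rw [a2, hp']; exact hz⟩
    have key : ∀ q, Linked (fun e => π (s e)) (fun e => π (t e))
        {e | (fun e => π (s e)) e ∈ B i ∧ (fun e => π (t e)) e ∈ B i} (π x) q → ∀ y', π y' = q →
        Linked s t {e | s e ∈ {v | π v ∈ B i} ∧ t e ∈ {v | π v ∈ B i}} x y' := by
      intro q hq
      induction hq with
      | refl => intro y' hy'; exact fib x y' hy'.symm hx'
      | @tail p q' _ hst ih =>
        intro y' hy'
        obtain ⟨e, ⟨he1, he2⟩, hE⟩ := hst
        have he1' : π (s e) ∈ B i := he1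
        have he2' : π (t e) ∈ B i := he2
        rcases hE with ⟨a1, a2⟩ | ⟨a1, a2⟩
        · have b1 : π (s e) = p := a1
          have b2 : π (t e) = q' := a2
          exact ((ih (s e) b1).tail ⟨e, ⟨he1, he2⟩, Or.inl ⟨rfl, rfl⟩⟩).trans
            (fib (t e) y' (b2.trans hy'.symm) he2')
        · have b1 : π (s e) = q' := a1
          have b2 : π (t e) = p := a2
          exact ((ih (t e) b2).tail ⟨e, ⟨he1, he2⟩, Or.inr ⟨rfl, rfl⟩⟩).trans
            (fib (s e) y' (b1.trans hy'.symm) he1')
    exact key (π y) ((h1 i).2 _ hx' _ hy') y rfl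
  · intro i j hij
    rw [Set.disjoint_left]
    intro v hv hv'
    exact Set.disjoint_left.1 (h2 i j hij) hv hv'
  · intro i j hij
    exact h3 i j hij

/-- a circuit of the multigraph as a list -/
theorem ci_of {s t : E → V} {n : ℕ} {v : ℕ → V} {e : ℕ → E} (hn : 3 ≤ n)
    (hv : ∀ i < n, ∀ j < n, v i = v j → i = j)
    (he : ∀ i < n, (s (e i) = v i ∧ t (e i) = v ((i + 1) % n)) ∨
      (s (e i) = v ((i + 1) % n) ∧ t (e i) = v i)) :
    Ci (nbG s t univ) ((List.range n).map v) := by
  have hadj : ∀ i < n, (nbG s t univ).Adj (v i) (v ((i + 1) % n)) := by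
    intro i hi
    refine ⟨fun h => ?_, e i, mem_univ _, he i hi⟩
    have h1 := hv _ (Nat.mod_lt _ (by omega)) i hi h
    rcases Nat.lt_or_ge (i + 1) n with h2 | h2
    · rw [Nat.mod_eq_of_lt h2] at h1; omega
    · have h3 : i + 1 = n := by omega
      rw [h3, Nat.mod_self] at h1
      omega
  refine ⟨⟨?_, ?_⟩, by simpa using hn, ?_⟩
  · exact (List.nodup_map_iff_inj_on List.nodup_range).2 fun i hi j hj hij =>
      hv i (List.mem_range.1 hi) j (List.mem_range.1 hj) hij
  · rw [List.isChain_iff_getElem]
    intro i hi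
    simp only [List.length_map, List.length_range] at hi
    simp only [List.getElem_map, List.getElem_range]
    have h1 := hadj i (by omega)
    rwa [Nat.mod_eq_of_lt hi] at h1
  · intro x hx y hy
    obtain ⟨k, rfl⟩ : ∃ k, n = k + 1 := ⟨n - 1, by omega⟩
    rw [List.range_succ, List.map_append] at hx
    simp only [List.map_cons, List.map_nil] at hx
    rw [List.getLast?_append_of_ne_nil _ (by simp)] at hx
    simp only [List.getLast?_singleton, Option.mem_def, Option.some.injEq] at hx
    rw [List.range_succ_eq_map] at hy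
    simp only [List.map_cons, List.head?_cons, Option.mem_def, Option.some.injEq] at hy
    subst hx hy
    have h1 := hadj k (by omega)
    rwa [Nat.mod_self] at h1

theorem local_of {s t : E → V} {e : E} (h : IsLocal s t e) {S : Finset E} (hS : Cl s t S) :
    e ∈ S := by
  classical
  have h1 := h (S : Set E) ?_
  · simpa using h1
  · intro C hC hc f hf
    have h7 : C = ((C.toFinset : Finset E) : Set E) := by simp
    have h2 := hS C.toFinset (fun w => by
      have h6 := hC w
      rw [h7, Cyc.degree_eq] at h6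
      exact h6) (by
      have h8 : ((C.toFinset \ S : Finset E) : Set E) = C \ (S : Set E) := by
        ext x; simp
      rw [← Set.ncard_coe_finset, h8]
      exact hc)
    exact Finset.mem_coe.2 (h2 (by simpa using hf))

theorem more_of_long {s t : E → V} {m : ℕ} (h : Long m s t) :
    MoreThan s t m (fun e => ¬ IsLocal s t e) := by
  classical
  obtain ⟨n, v, e, hv, he, hcard⟩ := h
  refine ⟨n, v, e, hv, he, lt_of_lt_of_le hcard ?_⟩
  rw [← Set.ncard_coe_finset]
  refine Set.ncard_le_ncard ?_ ((Set.finite_lt_nat n).subset fun i hi => hi.1)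
  intro i hi
  rw [Finset.mem_coe, Finset.mem_filter, Finset.mem_range] at hi
  exact ⟨hi.1, fun h1 => hi.2 fun S hS => local_of h1 hS⟩

/-- the principle: only the edges which are not local count -/
theorem principle {m : ℕ} (hm : 2 ≤ m) {s t : E → V} (hn : N1 s t univ)
    (hp : ¬ HasPetersenMinor s t)
    (hc : ¬ MoreThan s t m (fun e => ¬ IsLocal s t e))
    (H : ∀ s' t' : E → V, (∀ e, ¬ Isthmus s' t' e) → ¬ HasPetersenMinor s' t' →
      ¬ MoreThan s' t' m (fun _ => True) → TwoCycles s' t') : TwoCycles s t := by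
  classical
  by_contra hno
  have hnz : ¬ NZ s t univ := fun h => hno (two_cycles s t h)
  have hpq : ¬ PQ s t univ := fun h => hp (minor_of_contracts (contracts s t hn h))
  obtain ⟨σ, hσ, hM⟩ := exists_Mc s t univ hn hnz hpq
  have h1 : ¬ TwoCycles (fun e => σ (s e)) (fun e => σ (t e)) := fun h => hM.nz (nz_of_two h)
  apply h1
  refine H _ _ (isthmus_of hM.n1) (fun h => hp (minor_lift hσ h)) ?_
  rintro ⟨n, v, e, hv, he, hcard⟩
  have h2 : {i | i < n ∧ True}.ncard = n := by
    have h3 : {i | i < n ∧ True} = ((range n : Finset ℕ) : Set ℕ) := by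
      ext i; simp
    rw [h3, Set.ncard_coe_finset, card_range]
  rw [h2] at hcard
  have h3 := ci_of (s := fun e => σ (s e)) (t := fun e => σ (t e)) (v := v) (e := e)
    (by omega) hv he
  exact hc (more_of_long (long_of hσ hM h3 (by simpa using hcard)))

end

end Pool.Agent.H14.QF.Mn
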