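import Pool.Agent.H14.QF.Mn

/-!
# Graphs in which the edges that are not local have no large configurations
-/

set_option autoImplicit false
set_option linter.unusedSectionVars false

namespace Pool.Agent.H14.QF.Tm

open Finset Relation Pool.Agent.TH362.TF Pool.Agent.TH362.TF.Four Pool.Agent.R145.Cir
  Pool.Agent.R890.FF Pool.Agent.R140.PK Pool.Agent.N393.C13 Pool.Agent.W5h8.M9
  Pool.Agent.H14.QF.Circ

variable {V E : Type} [Fintype V] [DecidableEq V] [Fintype E] [DecidableEq E]

/-- the edge `e` is local -/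
def Loc (s t : E → V) (e : E) : Prop := ∀ S, Cl s t S → e ∈ S

/-- nine disjoint edges which are not local -/
def NineNL (s t : E → V) : Prop :=
  ∃ f : Fin 9 → E, (∀ i, ¬ Loc s t (f i)) ∧
    ∀ i j, i ≠ j → Disjoint ({s (f i), t (f i)} : Set V) {s (f j), t (f j)}

/-- thirteen disjoint vertex sets with different boundaries, each of which has three edges which are
not local -/
def FamNL (s t : E → V) : Prop :=
  ∃ X : Fin 13 → V → Bool, (∀ i j, i ≠ j → ∀ v, ¬ (X i v = true ∧ X j v = true)) ∧
    (∀ i j, i ≠ j → cut s t univ (X i) ≠ cut s t univ (X j)) ∧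
    ∀ i, (cut s t univ (X i)).card = 3 ∧ ∀ e ∈ cut s t univ (X i), ¬ Loc s t e

theorem not_loc {s t : E → V} {σ : V → V}
    (hM : Mc (fun e => σ (s e)) (fun e => σ (t e)) univ) {e : E} (h : σ (s e) ≠ σ (t e)) :
    ¬ Loc s t e := fun h1 => h (mem_filter.1 (h1 _ (cl_loops hM))).2

theorem nine_of {s t : E → V} {σ : V → V}
    (hM : Mc (fun e => σ (s e)) (fun e => σ (t e)) univ) : NineNL s t := by
  classical
  by_contra hno
  have key : NZ (fun e => σ (s e)) (fun e => σ (t e)) univ ∨
      PQ (fun e => σ (s e)) (fun e => σ (t e)) univ := by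
    refine W5h8.M9.match_nine_short (fun e => σ (s e)) (fun e => σ (t e)) univ hM.n1 ?_
    rintro ⟨f, hf, hd⟩
    refine hno ⟨f, fun i => not_loc hM fun h1 => ?_, fun i j hij => ?_⟩
    · have h2 := (hf i).2 {f i} (subset_univ _) (fun v => ?_) (mem_singleton_self _)
      · rw [card_singleton] at h2
        omega
      · unfold TH362.TF.deg
        rw [sum_singleton]
        simp only [h1]
        exact ⟨_, rfl⟩
    · have h2 := hd i j hij
      rw [Set.disjoint_left] at h2 ⊢
      rintro x (rfl | rfl) (h3 | h3)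
      · exact h2 (Or.inl rfl) (Or.inl (congrArg σ h3))
      · exact h2 (Or.inl rfl) (Or.inr (congrArg σ h3))
      · exact h2 (Or.inr rfl) (Or.inl (congrArg σ h3))
      · exact h2 (Or.inr rfl) (Or.inr (congrArg σ h3))
  exact key.elim hM.nz hM.pq

theorem fam_of {s t : E → V} {σ : V → V}
    (hM : Mc (fun e => σ (s e)) (fun e => σ (t e)) univ) : FamNL s t := by
  classical
  by_contra hno
  have hcut : ∀ X : V → Bool, cut s t univ (fun v => X (σ v)) =
      cut (fun e => σ (s e)) (fun e => σ (t e)) univ X := fun X => rfl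
  have key : NZ (fun e => σ (s e)) (fun e => σ (t e)) univ ∨
      PQ (fun e => σ (s e)) (fun e => σ (t e)) univ := by
    refine TH362.FO.alt (fun e => σ (s e)) (fun e => σ (t e)) univ hM.n1 (Or.inr ?_)
    rintro ⟨X, h1, h2, h3⟩
    refine hno ⟨fun i v => X i (σ v), fun i j hij v => h1 i j hij (σ v), fun i j hij => ?_,
      fun i => ⟨?_, fun e he => ?_⟩⟩
    · rw [hcut, hcut]; exact h2 i j hij
    · rw [hcut]; exact h3 i
    · refine not_loc hM fun h4 => ?_
      unfold TH362.TF.cut at he
      rw [mem_filter] at he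
      exact he.2 (by show X i (σ (s e)) = X i (σ (t e)); rw [h4])
  exact key.elim hM.nz hM.pq

/-- the three conditions -/
def Tame (s t : E → V) : Prop := ¬ Long 13 s t ∨ ¬ NineNL s t ∨ ¬ FamNL s t

/-- the dichotomy -/
theorem dich {s t : E → V} (hm : Tame s t) (π : V → V) (hπ : FC s t univ π)
    (h1 : N1 (fun e => π (s e)) (fun e => π (t e)) univ) :
    NZ (fun e => π (s e)) (fun e => π (t e)) univ ∨
      PQ (fun e => π (s e)) (fun e => π (t e)) univ := by
  rcases hm with hm | hm
  · exact Circ.dich hm π hπ h1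
  · by_contra hno
    rw [not_or] at hno
    obtain ⟨ρ, hρ, hM⟩ := exists_Mc _ _ univ h1 hno.1 hno.2
    have hM' : Mc (fun e => (fun v => ρ (π v)) (s e)) (fun e => (fun v => ρ (π v)) (t e)) univ := hM
    rcases hm with hm | hm
    · exact hm (nine_of (σ := fun v => ρ (π v)) hM')
    · exact hm (fam_of (σ := fun v => ρ (π v)) hM')

theorem cov_tame (s t : E → V) (hn : N1 s t univ) (hm : Tame s t) : Cov s t :=
  cov_gen s t hn fun π hπ h1 => dich hm π hπ h1

theorem fv_tame (s t : E → V) (hn : N1 s t univ) (hm : Tame s t) : Fv s t :=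
  fv_gen s t hn fun π hπ h1 => dich hm π hπ h1

end Pool.Agent.H14.QF.Tm
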