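import Pool.Agent.H14.QF.Tame
import Pool.Agent.Results.MP_e6539c_co.LongCircuits
import Pool.Graph.R_seed8.TH455.TFA.RG

/-!
# Perfect matchings from nowhere-zero 4-flows of spanning cubic subgraphs
-/

set_option autoImplicit false
set_option linter.unusedSectionVars false

namespace Pool.Agent.H14.QF.Th

open Finset Pool.Agent.TH362.TF Pool.Agent.TH455.TFA Pool.Agent.TH362.Multi Pool.Agent.H14.QF.Mn

section

variable {V E : Type} [Fintype V] [DecidableEq V] [Fintype E] [DecidableEq E]

/-- the number of the ends of `e` which are equal to `v` -/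
def inc (s t : E → V) (v : V) (e : E) : ℕ := (if s e = v then 1 else 0) + (if t e = v then 1 else 0)

/-- degrees of the three colours -/
theorem three_one {a b c : ℕ} (h : a + b + c = 3) (h1 : Even (a + c)) (h2 : Even (b + c)) :
    a = 1 ∧ b = 1 ∧ c = 1 := by
  obtain ⟨x, hx⟩ := h1
  obtain ⟨y, hy⟩ := h2
  omega

theorem univF : (univ : Finset F) = {(0, 0), (0, 1), (1, 0), (1, 1)} := by decide

/-- the three colour classes at one vertex -/
theorem at_vertex {s t : E → V} {φ : E → F} (hφ : ∀ e, φ e ≠ 0) (v : V)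
    (hc : Cons s t univ φ v) (h3 : ∑ e, inc s t v e = 3) :
    ∑ e ∈ univ.filter (fun e => φ e = (0, 1)), inc s t v e = 1 ∧
    ∑ e ∈ univ.filter (fun e => φ e = (1, 0)), inc s t v e = 1 ∧
    ∑ e ∈ univ.filter (fun e => φ e = (1, 1)), inc s t v e = 1 := by
  have hfib : ∀ {M : Type} [AddCommMonoid M] (g : E → M), ∑ e, g e =
      ∑ e ∈ univ.filter (fun e => φ e = (0, 1)), g e +
      ∑ e ∈ univ.filter (fun e => φ e = (1, 0)), g e +
      ∑ e ∈ univ.filter (fun e => φ e = (1, 1)), g e := by
    intro M _ g
    rw [← Finset.sum_fiberwise univ φ g, univF]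
    have h0 : univ.filter (fun e => φ e = (0, 0)) = ∅ := by
      rw [filter_eq_empty_iff]
      intro e _ h
      exact hφ e h
    rw [sum_insert (by decide), sum_insert (by decide), sum_insert (by decide), sum_singleton, h0,
      sum_empty, zero_add, add_assoc]
  rw [hfib] at h3
  have hc1 : ∑ e, (inc s t v e : ZMod 2) * (φ e).1 = 0 := by
    have h4 := congrArg Prod.fst hc
    rw [Prod.fst_sum] at h4
    refine Eq.trans (sum_congr rfl fun e _ => ?_) h4
    unfold inc
    by_cases ha : s e = v <;> by_cases hb : t e = v <;> simp [ha, hb, two_mul]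
  have hc2 : ∑ e, (inc s t v e : ZMod 2) * (φ e).2 = 0 := by
    have h4 := congrArg Prod.snd hc
    rw [Prod.snd_sum] at h4
    refine Eq.trans (sum_congr rfl fun e _ => ?_) h4
    unfold inc
    by_cases ha : s e = v <;> by_cases hb : t e = v <;> simp [ha, hb, two_mul]
  have hval : ∀ (a : F) (g : F → ZMod 2), ∑ e ∈ univ.filter (fun e => φ e = a),
      (inc s t v e : ZMod 2) * g (φ e) =
      ((∑ e ∈ univ.filter (fun e => φ e = a), inc s t v e : ℕ) : ZMod 2) * g a := by
    intro a g
    push_cast
    rw [sum_mul]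
    refine sum_congr rfl fun e he => ?_
    rw [(mem_filter.1 he).2]
  rw [hfib, hval (0, 1) Prod.fst, hval (1, 0) Prod.fst, hval (1, 1) Prod.fst] at hc1
  rw [hfib, hval (0, 1) Prod.snd, hval (1, 0) Prod.snd, hval (1, 1) Prod.snd] at hc2
  simp only [mul_zero, zero_add, mul_one, add_zero] at hc1 hc2
  rw [← Nat.cast_add, ZMod.natCast_eq_zero_iff_even] at hc1 hc2
  have h5 := three_one (a := ∑ e ∈ univ.filter (fun e => φ e = (1, 0)), inc s t v e)
    (b := ∑ e ∈ univ.filter (fun e => φ e = (0, 1)), inc s t v e)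
    (c := ∑ e ∈ univ.filter (fun e => φ e = (1, 1)), inc s t v e) (by omega) hc1 hc2
  exact ⟨h5.2.1, h5.1, h5.2.2⟩

/-- three perfect matchings of a cubic graph with a nowhere-zero 4-flow -/
theorem three_pm {s t : E → V} (h : NZ s t univ)
    (h3 : ∀ v, ∑ e, ((if s e = v then 1 else 0) + (if t e = v then 1 else 0)) = 3) :
    ∃ c : E → Fin 3, ∀ i, Pm s t (univ.filter (fun e => c e = i)) := by
  obtain ⟨φ, hφ, hc⟩ := h
  have hφ' : ∀ e, φ e ≠ 0 := fun e => hφ e (mem_univ e)
  let c : E → Fin 3 := fun e => if φ e = (0, 1) then 0 else if φ e = (1, 0) then 1 else 2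
  have h01 : ∀ e, c e = 0 ↔ φ e = (0, 1) := by
    intro e
    have h4 := hφ' e
    simp only [c]
    revert h4
    generalize φ e = y
    revert y
    decide
  have h10 : ∀ e, c e = 1 ↔ φ e = (1, 0) := by
    intro e
    have h4 := hφ' e
    simp only [c]
    revert h4
    generalize φ e = y
    revert y
    decide
  have h11 : ∀ e, c e = 2 ↔ φ e = (1, 1) := by
    intro e
    have h4 := hφ' e
    simp only [c]
    revert h4
    generalize φ e = y
    revert y
    decide
  refine ⟨c, fun i v => ?_⟩
  obtain ⟨a1, a2, a3⟩ := at_vertex hφ' v (hc v) (h3 v)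
  fin_cases i
  · show ∑ e ∈ univ.filter (fun e => c e = 0), inc s t v e = 1
    simp only [h01]
    exact a1
  · show ∑ e ∈ univ.filter (fun e => c e = 1), inc s t v e = 1
    simp only [h10]
    exact a2
  · show ∑ e ∈ univ.filter (fun e => c e = 2), inc s t v e = 1
    simp only [h11]
    exact a3

theorem nz_of {s t : E → V} (hI : ∀ e, ¬ Isthmus s t e) (hP : ¬ HasPetersenMinor s t)
    (h : ¬ MoreThan s t 15 (fun e => ¬ IsLocal s t e) ∨ ¬ Tm.NineNL s t ∨ ¬ Tm.FamNL s t) :
    NZ s t univ := by
  rcases h with h | h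
  · exact nz_of_two (Results.MP_e6539c_co.LongCircuits.result V E s t hI hP h)
  · have hn := TH362.TF.n1_of s t hI
    rcases Tm.dich (s := s) (t := t) (Or.inr h) id
      (fun x y hxy => by rw [show x = y from hxy]) hn with h1 | h1
    · exact h1
    · exact absurd (minor_of_contracts (contracts s t hn h1)) hP

theorem one_class {J : Type} [DecidableEq J] {src dst : E → V} (κ : E → J) (j : J)
    (h : Pm src dst (univ.filter (fun e => κ e = j)) ∨
      (NZ (fun e : {e : E // κ e = j} => src e.1) (fun e => dst e.1) univ ∧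
        ∀ v, ∑ e : {e : E // κ e = j}, ((if src e.1 = v then 1 else 0) +
          (if dst e.1 = v then 1 else 0)) = 3)) :
    ∃ M : Multiset (Finset E), (∀ P ∈ M, Pm src dst P) ∧
      ∀ e, M.countP (fun P => e ∈ P) = if κ e = j then 1 else 0 := by
  rcases h with h | ⟨h, h3⟩
  · refine ⟨{univ.filter (fun e => κ e = j)}, ?_, fun e => ?_⟩
    · intro P hP
      rw [Multiset.mem_singleton] at hP
      rw [hP]; exact h
    · by_cases he : κ e = j
      · rw [if_pos he, ← Multiset.cons_zero, Multiset.countP_cons_of_pos _ (by simpa using he)]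
        rfl
      · rw [if_neg he, ← Multiset.cons_zero, Multiset.countP_cons_of_neg _ (by simpa using he)]
        rfl
  · obtain ⟨c, hP⟩ := three_pm h h3
    refine ⟨(univ : Finset (Fin 3)).val.map
      (fun i => (univ.filter (fun e => c e = i)).map
        (Function.Embedding.subtype (fun e => κ e = j))), ?_, fun e => ?_⟩
    · intro Q hQ
      rw [Multiset.mem_map] at hQ
      obtain ⟨i, _, rfl⟩ := hQ
      intro v
      rw [sum_map]
      exact hP i v
    · rw [Multiset.countP_map]
      by_cases he : κ e = j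
      · rw [if_pos he]
        change ((univ : Finset (Fin 3)).filter _).card = _
        rw [card_eq_one]
        refine ⟨c ⟨e, he⟩, ?_⟩
        ext i
        simp [he, eq_comm]
      · rw [if_neg he]
        change ((univ : Finset (Fin 3)).filter _).card = _
        rw [card_eq_zero, filter_eq_empty_iff]
        intro i _ hi
        rw [mem_map] at hi
        obtain ⟨x, _, hx⟩ := hi
        exact he (hx ▸ x.2)

/-- all classes -/
theorem all_classes {J : Type} [DecidableEq J] [Fintype J] {src dst : E → V} (κ : E → J)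
    (h : ∀ j, Pm src dst (univ.filter (fun e => κ e = j)) ∨
      (NZ (fun e : {e : E // κ e = j} => src e.1) (fun e => dst e.1) univ ∧
        ∀ v, ∑ e : {e : E // κ e = j}, ((if src e.1 = v then 1 else 0) +
          (if dst e.1 = v then 1 else 0)) = 3)) (a : J → ℕ) :
    ∃ M : Multiset (Finset E), (∀ P ∈ M, Pm src dst P) ∧
      ∀ e, M.countP (fun P => e ∈ P) = a (κ e) := by
  classical
  choose M h1 h2 using fun j => one_class κ j (h j)
  refine ⟨∑ j, a j • M j, ?_, fun e => ?_⟩
  · intro P hP
    rw [Multiset.mem_sum] at hP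
    obtain ⟨j, _, hj⟩ := hP
    exact h1 j P (Multiset.mem_of_mem_nsmul hj)
  · have h3 := map_sum (Multiset.countPAddMonoidHom (fun P : Finset E => e ∈ P))
      (fun j => a j • M j) univ
    simp only [map_nsmul, Multiset.coe_countPAddMonoidHom, smul_eq_mul] at h3
    rw [h3, sum_congr rfl fun j _ => by rw [h2 j e]]
    simp

end

end Pool.Agent.H14.QF.Th
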